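import Pool.Agent.H604R2.LEC.Glynn

/-!
# A coefficient of the generic determinant to the power `p - 2` modulo `p`

Glynn's formula for every size (after `Pool/Agent/H604R2/LEC/Glynn.lean`), and the coefficient of
the monomial with all exponents `N`, off the diagonal, and `N - 1` on the diagonal, `k N = p - 1`.
-/

set_option autoImplicit false

namespace Pool.Agent.Y306.ZP

open MvPolynomial Finset Pool.Agent.H604R2.LEC

variable {p : ℕ} [Fact p.Prime]

/-- the exponents of a monomial -/
noncomputable def expo {k : ℕ} (M : Fin k → Fin k → ℕ) : Fin k × Fin k →₀ ℕ :=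
  Finsupp.equivFunOnFinite.symm fun e => M e.1 e.2

/-- Glynn's formula at points, every size. -/
theorem det_pow_point' {n : ℕ} (A : Matrix (Fin n) (Fin n) (ZMod p)) :
    A.det ^ (p - 1) = (-1) ^ n * ∑ y : Fin n → ZMod p, ∏ i, (A.mulVec y i) ^ (p - 1) := by
  have hp : 0 < p - 1 := Nat.sub_pos_of_lt (Fact.out : p.Prime).one_lt
  by_cases hA : A.det = 0
  · rw [hA, zero_pow (by omega)]
    obtain ⟨v, hv, hAv⟩ := Matrix.exists_mulVec_eq_zero_iff.mpr hA
    obtain ⟨j, hj⟩ : ∃ j, v j ≠ 0 := by
      by_contra h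
      push Not at h
      exact hv (funext h)
    set g : (Fin n → ZMod p) → ZMod p := fun y => ∏ i, (A.mulVec y i) ^ (p - 1) with hg
    have hshift : ∀ y, g (y + v) = g y := by
      intro y
      simp only [hg, Matrix.mulVec_add, hAv, add_zero]
    have h1 : ∑ y, g y * (y j / v j) = ∑ y, g (y + v) * ((y + v) j / v j) :=
      (Equiv.sum_comp (Equiv.addRight v) (fun y => g y * (y j / v j))).symm
    have h2 : ∑ y, g (y + v) * ((y + v) j / v j) = ∑ y, g y * (y j / v j) + ∑ y, g y := by
      rw [← Finset.sum_add_distrib]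
      apply Finset.sum_congr rfl
      intro y _
      rw [hshift, Pi.add_apply, add_div, div_self hj]
      ring
    rw [h2] at h1
    have h3 : ∑ y, g y = 0 := by linear_combination -h1
    rw [h3, mul_zero]
  · rw [ZMod.pow_card_sub_one_eq_one hA]
    have hu : IsUnit A := (Matrix.isUnit_iff_isUnit_det A).2 (Ne.isUnit hA)
    let e : (Fin n → ZMod p) ≃ (Fin n → ZMod p) :=
      { toFun := A.mulVec
        invFun := A⁻¹.mulVec
        left_inv := fun y => by
          rw [Matrix.mulVec_mulVec, Matrix.nonsing_inv_mul A (Ne.isUnit hA), Matrix.one_mulVec]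
        right_inv := fun y => by
          rw [Matrix.mulVec_mulVec, Matrix.mul_nonsing_inv A (Ne.isUnit hA), Matrix.one_mulVec] }
    have h1 : ∑ y : Fin n → ZMod p, ∏ i, (A.mulVec y i) ^ (p - 1) =
        ∑ z : Fin n → ZMod p, ∏ i, (z i) ^ (p - 1) :=
      Equiv.sum_comp e (fun z => ∏ i, (z i) ^ (p - 1))
    rw [h1, ← Fintype.piFinset_univ, ← Finset.prod_univ_sum (fun _ => univ) (fun _ z => z ^ (p - 1))]
    rw [sum_pow_pred, Finset.prod_const, Finset.card_univ, Fintype.card_fin, ← mul_pow]
    norm_num

/-- Glynn's formula, generic version, every size. -/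
theorem det_pow_gen' {n : ℕ} :
    (gen p n).det ^ (p - 1) =
      C ((-1) ^ n) * ∑ y : Fin n → ZMod p, ∏ i, (∑ j, X (i, j) * C (y j)) ^ (p - 1) := by
  rw [← sub_eq_zero]
  apply eq_zero_of_eval_eq_zero
  · intro v
    rw [map_sub, map_pow, sub_eq_zero, map_mul, eval_C]
    have h1 : eval v (gen p n).det = (Matrix.of fun i j => v (i, j)).det := by
      rw [RingHom.map_det]
      congr 1
      ext i j
      simp [gen]
    rw [h1, det_pow_point', map_sum]
    congr 1
    apply Finset.sum_congr rfl
    intro y _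
    rw [map_prod]
    apply Finset.prod_congr rfl
    intro i _
    rw [map_pow, map_sum]
    congr 1
    simp [Matrix.mulVec, dotProduct]
  · rw [mem_restrictDegree, ZMod.card]
    intro s hs e
    have key : degreeOf e ((gen p n).det ^ (p - 1) -
        C ((-1) ^ n) * ∑ y : Fin n → ZMod p, ∏ i, (∑ j, X (i, j) * C (y j)) ^ (p - 1)) ≤ p - 1 := by
      refine (degreeOf_sub_le _ _ _).trans (max_le ?_ ?_)
      · refine (degreeOf_pow_le _ _ _).trans ?_
        have h1 : degreeOf e (gen p n).det ≤ 1 := by
          rw [Matrix.det_apply]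
          apply degreeOf_sum_le'
          intro σ _
          have h2 : degreeOf e (∏ i, gen p n (σ i) i) ≤ 1 := by
            apply degreeOf_prod_le' _ _ _ e.2 1
            · classical
              rw [gen, Matrix.of_apply, degreeOf_X]
              split_ifs <;> simp
            · intro i _ hi
              rw [gen, Matrix.of_apply]
              apply degreeOf_X_of_ne
              intro h
              apply hi
              rw [h]
          rcases Int.units_eq_one_or (Equiv.Perm.sign σ) with h | h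
          · rw [h, one_smul]; exact h2
          · rw [h, Units.neg_smul, one_smul, degreeOf_neg]; exact h2
        calc (p - 1) * degreeOf e (gen p n).det ≤ (p - 1) * 1 := Nat.mul_le_mul_left _ h1
          _ = p - 1 := mul_one _
      · refine (degreeOf_C_mul_le _ _ _).trans ?_
        apply degreeOf_sum_le'
        intro y _
        apply degreeOf_prod_le' _ _ _ e.1 (p - 1)
        · refine (degreeOf_pow_le _ _ _).trans ?_
          have h1 : degreeOf e (∑ j, X (e.1, j) * C (y j) : MvPolynomial (Fin n × Fin n) (ZMod p)) ≤ 1 := by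
            apply degreeOf_sum_le'
            intro j _
            refine (degreeOf_mul_C_le _ _ _).trans ?_
            classical
            rw [degreeOf_X]
            split_ifs <;> simp
          calc (p - 1) * _ ≤ (p - 1) * 1 := Nat.mul_le_mul_left _ h1
            _ = p - 1 := mul_one _
        · intro i _ hi
          have h1 : degreeOf e (∑ j, X (i, j) * C (y j) : MvPolynomial (Fin n × Fin n) (ZMod p)) ≤ 0 := by
            apply degreeOf_sum_le'
            intro j _
            refine (degreeOf_mul_C_le _ _ _).trans ?_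
            rw [degreeOf_X_of_ne]
            intro h
            apply hi
            rw [h]
          have h2 := degreeOf_pow_le e
            (∑ j, X (i, j) * C (y j) : MvPolynomial (Fin n × Fin n) (ZMod p)) (p - 1)
          have h3 : (p - 1) * degreeOf e
            (∑ j, X (i, j) * C (y j) : MvPolynomial (Fin n × Fin n) (ZMod p)) = 0 := by
            rw [Nat.le_zero.1 h1, mul_zero]
          omega
    exact (degreeOf_le_iff.1 key) s hs

/-! ### The coefficient of the right side -/

theorem expo_inj {k : ℕ} {M M' : Fin k → Fin k → ℕ} (h : expo M = expo M') : M = M' := by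
  funext i j
  exact DFunLike.congr_fun h (i, j)

theorem prod_X_expo {k : ℕ} (M : Fin k → Fin k → ℕ) (c : Fin k → Fin k → ZMod p) :
    ∏ i, ∏ j, (X (i, j) * C (c i j) : MvPolynomial (Fin k × Fin k) (ZMod p)) ^ M i j =
      monomial (expo M) (∏ i, ∏ j, c i j ^ M i j) := by
  have h1 : ∏ i, ∏ j, (X (i, j) * C (c i j) : MvPolynomial (Fin k × Fin k) (ZMod p)) ^ M i j =
      C (∏ i, ∏ j, c i j ^ M i j) * ∏ e : Fin k × Fin k, X e ^ M e.1 e.2 := by
    rw [Fintype.prod_prod_type, map_prod, ← Finset.prod_mul_distrib]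
    refine Finset.prod_congr rfl fun i _ => ?_
    rw [map_prod, ← Finset.prod_mul_distrib]
    refine Finset.prod_congr rfl fun j _ => ?_
    rw [mul_pow, map_pow, mul_comm]
  rw [h1, monomial_eq]
  congr 1
  rw [Finsupp.prod_fintype _ _ (fun _ => pow_zero _)]
  rfl

theorem coeff_rhs {k : ℕ} (N m : ℕ) (hm : k * N = m) (y : Fin k → ZMod p) :
    coeff (expo fun _ _ : Fin k => N)
      (∏ i, (∑ j, X (i, j) * C (y j)) ^ m : MvPolynomial (Fin k × Fin k) (ZMod p)) =
      (Nat.multinomial univ (fun _ : Fin k => N) : ZMod p) ^ k * ∏ j, y j ^ (k * N) := by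
  have h1 : ∀ i : Fin k, ((∑ j, X (i, j) * C (y j)) ^ m : MvPolynomial (Fin k × Fin k) (ZMod p)) =
      ∑ κ ∈ piAntidiag univ m, (Nat.multinomial univ κ : MvPolynomial (Fin k × Fin k) (ZMod p)) *
        ∏ j, (X (i, j) * C (y j)) ^ κ j := by
    intro i
    exact Finset.sum_pow_eq_sum_piAntidiag univ (fun j => X (i, j) * C (y j)) m
  simp_rw [h1]
  rw [Finset.prod_univ_sum, coeff_sum]
  have h2 : ∀ K : Fin k → Fin k → ℕ,
      coeff (expo fun _ _ : Fin k => N) (∏ i, ((Nat.multinomial univ (K i) :
        MvPolynomial (Fin k × Fin k) (ZMod p)) * ∏ j, (X (i, j) * C (y j)) ^ K i j)) =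
      if K = (fun _ _ => N) then (Nat.multinomial univ (fun _ : Fin k => N) : ZMod p) ^ k *
        ∏ j, y j ^ (k * N) else 0 := by
    intro K
    rw [Finset.prod_mul_distrib, prod_X_expo K (fun _ j => y j)]
    have h3 : ∏ i, (Nat.multinomial univ (K i) : MvPolynomial (Fin k × Fin k) (ZMod p)) =
        C (∏ i, (Nat.multinomial univ (K i) : ZMod p)) := by
      rw [map_prod]
      refine Finset.prod_congr rfl fun i _ => ?_
      rw [map_natCast]
    rw [h3, coeff_C_mul, coeff_monomial]
    split_ifs with h4 h5 h5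
    · subst h5
      rw [Finset.prod_const, Finset.card_univ, Fintype.card_fin, Finset.prod_comm]
      congr 1
      refine Finset.prod_congr rfl fun j _ => ?_
      rw [Finset.prod_const, Finset.card_univ, Fintype.card_fin, ← pow_mul, mul_comm]
    · exact absurd (expo_inj h4) h5
    · exact absurd (by rw [h5]) h4
    · rw [mul_zero]
  simp_rw [h2]
  rw [Finset.sum_ite_eq', if_pos]
  rw [Fintype.mem_piFinset]
  intro i
  rw [Finset.mem_piAntidiag]
  refine ⟨?_, fun j _ => Finset.mem_univ _⟩
  rw [Finset.sum_const, Finset.card_univ, Fintype.card_fin, smul_eq_mul, hm]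

theorem coeff_glynn {k N : ℕ} (hk : k * N = p - 1) :
    coeff (expo fun _ _ : Fin k => N) ((gen p k).det ^ (p - 1)) =
      (Nat.multinomial univ (fun _ : Fin k => N) : ZMod p) ^ k := by
  rw [det_pow_gen', coeff_C_mul, coeff_sum]
  simp_rw [coeff_rhs N (p - 1) hk]
  rw [← Finset.mul_sum, hk]
  rw [← Fintype.piFinset_univ, ← Finset.prod_univ_sum (fun _ => univ) (fun _ z => z ^ (p - 1)),
    sum_pow_pred, Finset.prod_const, Finset.card_univ, Fintype.card_fin]
  have h : ((-1 : ZMod p) ^ k) * (-1) ^ k = 1 := by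
    rw [← mul_pow]
    norm_num
  linear_combination (Nat.multinomial univ (fun _ : Fin k => N) : ZMod p) ^ k * h

theorem multinomial_ne_zero {k N : ℕ} (hk : k * N = p - 1) :
    (Nat.multinomial univ (fun _ : Fin k => N) : ZMod p) ≠ 0 := by
  have hp : p.Prime := Fact.out
  intro h
  rw [ZMod.natCast_eq_zero_iff] at h
  have h1 := Nat.multinomial_spec univ (fun _ : Fin k => N)
  rw [Finset.sum_const, Finset.card_univ, Fintype.card_fin, smul_eq_mul, hk] at h1
  have h2 : p ∣ (p - 1).factorial := by
    rw [← h1]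
    exact Dvd.dvd.mul_left h _
  rw [hp.dvd_factorial] at h2
  have := hp.one_lt
  omega

/-! ### Expansion along the determinant -/

theorem prod_sigma {k : ℕ} (σ : Equiv.Perm (Fin k)) :
    (∏ i, X (σ i, i) : MvPolynomial (Fin k × Fin k) (ZMod p)) =
      monomial (expo fun i j => if i = σ j then 1 else 0) 1 := by
  have h := prod_X_expo (p := p) (fun i j : Fin k => if i = σ j then 1 else 0) (fun _ _ => 1)
  have h1 : (∏ i : Fin k, ∏ j : Fin k, (1 : ZMod p) ^ (if i = σ j then 1 else 0)) = 1 := by
    simp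
  rw [h1] at h
  rw [← h, Finset.prod_comm]
  refine Finset.prod_congr rfl fun j _ => ?_
  rw [Finset.prod_eq_single (σ j)]
  · rw [if_pos rfl, map_one, mul_one, pow_one]
  · intro b _ hb
    rw [if_neg hb, pow_zero]
  · intro h
    exact absurd (Finset.mem_univ _) h

theorem term_expo {k N : ℕ} (hN : 1 ≤ N) (σ : Equiv.Perm (Fin k))
    (E : MvPolynomial (Fin k × Fin k) (ZMod p)) :
    coeff (expo fun _ _ : Fin k => N) ((∏ i, X (σ i, i)) * E) =
      coeff (expo fun i j : Fin k => if i = σ j then N - 1 else N) E := by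
  have h2 : (expo fun _ _ : Fin k => N) = (expo fun i j : Fin k => if i = σ j then 1 else 0) +
      (expo fun i j : Fin k => if i = σ j then N - 1 else N) := by
    ext e
    rw [Finsupp.add_apply]
    change N = (if e.1 = σ e.2 then 1 else 0) + (if e.1 = σ e.2 then N - 1 else N)
    split_ifs <;> omega
  rw [prod_sigma, h2, coeff_monomial_mul, one_mul]

theorem rename_det {k : ℕ} (σ : Equiv.Perm (Fin k)) :
    rename (fun e : Fin k × Fin k => (σ e.1, e.2)) (gen p k).det =
      C (((Equiv.Perm.sign σ : ℤˣ) : ℤ) : ZMod p) * (gen p k).det := by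
  have h1 : rename (fun e : Fin k × Fin k => (σ e.1, e.2)) (gen p k).det =
      ((gen p k).submatrix σ id).det := by
    rw [AlgHom.map_det]
    congr 1
    ext i j : 2
    simp [gen]
  rw [h1, Matrix.det_permute, map_intCast]

theorem coeff_sigma (hp2 : p ≠ 2) {k N : ℕ} (σ : Equiv.Perm (Fin k)) :
    coeff (expo fun i j : Fin k => if i = j then N - 1 else N) ((gen p k).det ^ (p - 2)) =
      (((Equiv.Perm.sign σ : ℤˣ) : ℤ) : ZMod p) *
        coeff (expo fun i j : Fin k => if i = σ j then N - 1 else N)
          ((gen p k).det ^ (p - 2)) := by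
  have hinj : Function.Injective (fun e : Fin k × Fin k => (σ e.1, e.2)) := by
    rintro ⟨a, b⟩ ⟨c, d⟩ h
    simp only [Prod.mk.injEq, EmbeddingLike.apply_eq_iff_eq] at h
    exact Prod.ext h.1 h.2
  have h1 := coeff_rename_mapDomain (fun e : Fin k × Fin k => (σ e.1, e.2)) hinj
    ((gen p k).det ^ (p - 2)) (expo fun i j : Fin k => if i = j then N - 1 else N)
  rw [← h1, map_pow, rename_det, mul_pow, ← map_pow, coeff_C_mul]
  congr 1
  · have hp : p.Prime := Fact.out
    have hodd : Odd (p - 2) := by
      have h2 := hp.two_le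
      have h3 : Odd p := hp.odd_of_ne_two hp2
      obtain ⟨m, hm⟩ := h3
      exact ⟨m - 1, by omega⟩
    rcases Int.units_eq_one_or (Equiv.Perm.sign σ) with h | h
    · rw [h]
      simp
    · rw [h]
      simp [hodd.neg_one_pow]
  · congr 1
    ext e
    obtain ⟨a, b⟩ := e
    have e1 : ((a, b) : Fin k × Fin k) =
        (fun e : Fin k × Fin k => (σ e.1, e.2)) (σ.symm a, b) := by
      simp
    rw [e1, Finsupp.mapDomain_apply hinj]
    change (if σ.symm a = b then N - 1 else N) = if σ (σ.symm a) = σ b then N - 1 else N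
    simp only [EmbeddingLike.apply_eq_iff_eq]

theorem detc (hp2 : p ≠ 2) {k N : ℕ} (hk : k * N = p - 1) :
    coeff (expo fun i j : Fin k => if i = j then N - 1 else N)
      ((gen p k).det ^ (p - 2)) ≠ 0 := by
  have hp : p.Prime := Fact.out
  have hp1 : 2 ≤ p := hp.two_le
  have hN : 1 ≤ N := by
    rcases Nat.eq_zero_or_pos N with h | h
    · rw [h, mul_zero] at hk
      omega
    · exact h
  intro h0
  have h1 := coeff_glynn hk
  have e : p - 1 = (p - 2) + 1 := by omega
  rw [e, pow_succ', Matrix.det_apply', Finset.sum_mul, coeff_sum] at h1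
  rw [← Matrix.det_apply'] at h1
  have h2 : ∀ σ : Equiv.Perm (Fin k), coeff (expo fun _ _ : Fin k => N)
      ((((Equiv.Perm.sign σ : ℤˣ) : ℤ) : MvPolynomial (Fin k × Fin k) (ZMod p)) *
        (∏ i, gen p k (σ i) i) * (gen p k).det ^ (p - 2)) = 0 := by
    intro σ
    have e3 : (((Equiv.Perm.sign σ : ℤˣ) : ℤ) : MvPolynomial (Fin k × Fin k) (ZMod p)) =
        C (((Equiv.Perm.sign σ : ℤˣ) : ℤ) : ZMod p) := by rw [map_intCast]
    have e4 : (∏ i, gen p k (σ i) i) =
        (∏ i, X (σ i, i) : MvPolynomial (Fin k × Fin k) (ZMod p)) := rfl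
    rw [e3, e4, mul_assoc, coeff_C_mul, term_expo hN]
    rw [← coeff_sigma hp2 σ, h0]
  rw [Finset.sum_congr rfl (fun σ _ => h2 σ), Finset.sum_const_zero] at h1
  exact pow_ne_zero k (multinomial_ne_zero hk) h1.symm

end Pool.Agent.Y306.ZP
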