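import Pool.Agent.Y819.ZF.StmP
import Pool.Agent.Y306.ZP.Detc0

/-!
# Project ZF, task ZP-DETC
-/

set_option autoImplicit false

namespace Pool.Agent.Y306.ZP

theorem main : Pool.Agent.Y819.ZF.S_DETC := by
  intro p _ hp2 k N hk
  exact detc hp2 hk

end Pool.Agent.Y306.ZP
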